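import Pool.Agent.P8H60.BC.Stm

/-! Package GL of project BC: the one dimensional normal law. -/

namespace Pool.Agent.P8H7.BC

open Pool.Agent.P8H60.BC Finset MeasureTheory ProbabilityTheory

/-- the standard normal density -/
noncomputable abbrev ph (x : ℝ) : ℝ := gaussianPDFReal 0 1 x

theorem ph_cont : Continuous ph := by
  unfold ph
  rw [gaussianPDFReal_def]
  fun_prop

theorem ph_le_one (x : ℝ) : ph x ≤ 1 := by
  unfold ph gaussianPDFReal
  have h1 : (Real.sqrt (2 * Real.pi * ((1 : NNReal) : ℝ)))⁻¹ ≤ 1 := by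
    refine inv_le_one_of_one_le₀ ?_
    rw [Real.one_le_sqrt]
    have := Real.pi_gt_three
    simp only [NNReal.coe_one]
    linarith
  have h2 : Real.exp (-(x - 0) ^ 2 / (2 * ((1 : NNReal) : ℝ))) ≤ 1 := by
    rw [Real.exp_le_one_iff]
    have : 0 ≤ (x - 0) ^ 2 := sq_nonneg _
    simp only [NNReal.coe_one]
    linarith
  calc _ ≤ (1:ℝ) * 1 := mul_le_mul h1 h2 (Real.exp_pos _).le zero_le_one
    _ = 1 := one_mul 1

theorem ph_mono {x y : ℝ} (h : |x| ≤ |y|) : ph y ≤ ph x := by
  unfold ph gaussianPDFReal
  refine mul_le_mul_of_nonneg_left (Real.exp_le_exp.2 ?_) (by positivity)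
  have h1 : x ^ 2 ≤ y ^ 2 := sq_le_sq.2 h
  simp only [NNReal.coe_one, sub_zero]
  linarith

theorem real_Icc (a b : ℝ) (hab : a ≤ b) :
    (gaussianReal 0 1).real (Set.Icc a b) = ∫ x in a..b, ph x := by
  rw [Measure.real, gaussianReal_apply_eq_integral _ one_ne_zero, ENNReal.toReal_ofReal,
    intervalIntegral.integral_of_le hab, integral_Icc_eq_integral_Ioc]
  exact setIntegral_nonneg measurableSet_Icc fun x _ => gaussianPDFReal_nonneg _ _ _

/-- the mass of the interval with centre `a` and half length `l` -/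
noncomputable def G (l a : ℝ) : ℝ := ∫ x in (a - l)..(a + l), ph x

theorem G_deriv (l a : ℝ) : HasDerivAt (G l) (ph (a + l) - ph (a - l)) a := by
  have e : G l = fun a => (∫ x in (0:ℝ)..(a + l), ph x) - ∫ x in (0:ℝ)..(a - l), ph x := by
    funext b
    unfold G
    rw [intervalIntegral.integral_interval_sub_left] <;>
      exact ph_cont.intervalIntegrable _ _
  rw [e]
  have h1 : HasDerivAt (fun u : ℝ => ∫ x in (0:ℝ)..u, ph x) (ph (a + l)) (a + l) :=
    intervalIntegral.integral_hasDerivAt_right (ph_cont.intervalIntegrable _ _)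
      (ph_cont.stronglyMeasurableAtFilter _ _) ph_cont.continuousAt
  have h2 : HasDerivAt (fun u : ℝ => ∫ x in (0:ℝ)..u, ph x) (ph (a - l)) (a - l) :=
    intervalIntegral.integral_hasDerivAt_right (ph_cont.intervalIntegrable _ _)
      (ph_cont.stronglyMeasurableAtFilter _ _) ph_cont.continuousAt
  have h3 := h1.comp_add_const a l
  have h4 := h2.comp_sub_const a l
  exact h3.sub h4

theorem G_le (l : ℝ) (hl : 0 ≤ l) (a : ℝ) : G l a ≤ G l 0 := by
  have hc : Continuous (G l) :=
    continuous_iff_continuousAt.2 fun a => (G_deriv l a).continuousAt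
  rcases le_total 0 a with h | h
  · have hanti : AntitoneOn (G l) (Set.Ici 0) := by
      refine antitoneOn_of_deriv_nonpos (convex_Ici 0) hc.continuousOn
        (fun x _ => (G_deriv l x).differentiableAt.differentiableWithinAt) fun x hx => ?_
      rw [interior_Ici, Set.mem_Ioi] at hx
      rw [(G_deriv l x).deriv, sub_nonpos]
      refine ph_mono ?_
      rw [abs_of_nonneg (by linarith : 0 ≤ x + l), abs_le]
      constructor <;> linarith
    exact hanti (Set.mem_Ici.2 le_rfl) (Set.mem_Ici.2 h) h
  · have hmono : MonotoneOn (G l) (Set.Iic 0) := by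
      refine monotoneOn_of_deriv_nonneg (convex_Iic 0) hc.continuousOn
        (fun x _ => (G_deriv l x).differentiableAt.differentiableWithinAt) fun x hx => ?_
      rw [interior_Iic, Set.mem_Iio] at hx
      rw [(G_deriv l x).deriv, sub_nonneg]
      refine ph_mono ?_
      rw [abs_of_nonpos (by linarith : x - l ≤ 0), abs_le]
      constructor <;> linarith
    exact hmono (Set.mem_Iic.2 h) (Set.mem_Iic.2 le_rfl) h

theorem G_lip (l t : ℝ) (ht : 0 ≤ t) : G (l + t) 0 ≤ G l 0 + 2 * t := by
  have i : ∀ a b : ℝ, IntervalIntegrable ph volume a b := fun a b => ph_cont.intervalIntegrable a b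
  have e : G (l + t) 0 = (∫ x in (-(l + t))..(-l), ph x) + G l 0 + ∫ x in l..(l + t), ph x := by
    unfold G
    rw [zero_sub, zero_add, zero_sub, zero_add,
      intervalIntegral.integral_add_adjacent_intervals (i _ _) (i _ _),
      intervalIntegral.integral_add_adjacent_intervals (i _ _) (i _ _)]
  have h1 : ∀ a b : ℝ, a ≤ b → (∫ x in a..b, ph x) ≤ b - a := by
    intro a b hab
    calc (∫ x in a..b, ph x) ≤ ∫ x in a..b, (1:ℝ) :=
          intervalIntegral.integral_mono_on hab (i a b) (by simp) fun x _ => ph_le_one x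
      _ = b - a := by simp
  have h2 := h1 (-(l + t)) (-l) (by linarith)
  have h3 := h1 l (l + t) (by linarith)
  rw [e]
  linarith

theorem real_Icc_le (l a : ℝ) (hl : 0 ≤ l) :
    (gaussianReal 0 1).real (Set.Icc (a - l) (a + l)) ≤ G l 0 := by
  rw [real_Icc _ _ (by linarith)]
  exact G_le l hl a

theorem pG_eq (δ : ℝ) (h : 0 ≤ δ) : pG δ = G δ 0 := by
  unfold pG G
  rw [real_Icc _ _ (by linarith), zero_sub, zero_add]

theorem tails (ε : ℝ) (he : 0 < ε) : ∃ R : ℝ, ∀ r, R ≤ r →
    (gaussianReal 0 1).real (Set.Iic (-r)) ≤ ε ∧ (gaussianReal 0 1).real (Set.Ici r) ≤ ε := by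
  have h1 := tendsto_cdf_atBot (gaussianReal 0 1)
  have h2 := tendsto_cdf_atTop (gaussianReal 0 1)
  obtain ⟨A, hA⟩ := Filter.eventually_atBot.1 (h1.eventually (gt_mem_nhds he))
  obtain ⟨B, hB⟩ := Filter.eventually_atTop.1
    (h2.eventually (lt_mem_nhds (by linarith : 1 - ε < 1)))
  refine ⟨max (-A) (B + 1), fun r hr => ⟨?_, ?_⟩⟩
  · have h3 := hA (-r) (by linarith [le_max_left (-A) (B + 1)])
    rw [cdf_eq_real] at h3
    exact h3.le
  · have h3 := hB (r - 1) (by linarith [le_max_right (-A) (B + 1)])
    rw [cdf_eq_real] at h3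
    have h4 : Set.Ici r ⊆ (Set.Iic (r - 1))ᶜ := by
      intro x hx
      simp only [Set.mem_Ici, Set.mem_compl_iff, Set.mem_Iic, not_le] at hx ⊢
      linarith
    refine (measureReal_mono h4).trans ?_
    rw [probReal_compl_eq_one_sub measurableSet_Iic]
    linarith

theorem const_or {N : ℕ} (c : Fin (N + 1) → Bool) :
    (∀ m, c m = c 0) ∨ ∃ m : Fin N, c m.castSucc ≠ c m.succ := by
  by_contra hcon
  push Not at hcon
  obtain ⟨h1, h2⟩ := hcon
  obtain ⟨m, hm⟩ := h1
  refine hm ?_
  clear hm
  induction m using Fin.induction with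
  | zero => rfl
  | succ i ih =>
    exact (h2 i).symm.trans ih

theorem t_GL : S_GL := by
  intro δ ε hδ hε
  obtain ⟨R, hR⟩ := tails ε hε
  set h : ℝ := ε / 3 with hh
  have hpos : 0 < h := by positivity
  obtain ⟨N, hN⟩ := exists_nat_gt (2 * (|R| + (δ + h)) / h)
  have hN' : 2 * (|R| + (δ + h)) < N * h := by
    rwa [div_lt_iff₀ hpos] at hN
  have habs := le_abs_self R
  have hpG : 0 ≤ pG δ := by unfold pG; exact measureReal_nonneg
  refine ⟨δ + h, N + 1, fun m => -(N * h / 2) + m * h, by linarith, fun c => ?_⟩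
  rcases const_or c with hc | ⟨m, hm⟩
  · cases h0 : c 0 with
    | true =>
      have hsub : Bs (δ + h) (fun m : Fin (N + 1) => -(N * h / 2) + m * h) c ⊆
          Set.Iic (-(N * h / 2 - (δ + h))) := by
        intro z hz
        have := hz.1 0 h0
        simp only [Fin.val_zero, Nat.cast_zero] at this
        simp only [Set.mem_Iic]
        linarith
      refine (measureReal_mono hsub).trans ?_
      have := (hR (N * h / 2 - (δ + h)) (by linarith)).1
      linarith
    | false =>
      have hsub : Bs (δ + h) (fun m : Fin (N + 1) => -(N * h / 2) + m * h) c ⊆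
          Set.Ici (N * h / 2 - (δ + h)) := by
        intro z hz
        have := hz.2 (Fin.last N) (by rw [hc, h0])
        simp only [Fin.val_last] at this
        simp only [Set.mem_Ici]
        linarith
      refine (measureReal_mono hsub).trans ?_
      have := (hR (N * h / 2 - (δ + h)) (by linarith)).2
      linarith
  · have key : (gaussianReal 0 1).real (Set.Icc ((-(N * h / 2) + m * h + h / 2) - (δ + 3 * h / 2))
        ((-(N * h / 2) + m * h + h / 2) + (δ + 3 * h / 2))) ≤ pG δ + ε := by
      refine (real_Icc_le _ _ (by linarith)).trans ?_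
      have h1 := G_lip δ (3 * h / 2) (by linarith)
      rw [pG_eq δ hδ.le]
      linarith
    have hsub : Bs (δ + h) (fun m : Fin (N + 1) => -(N * h / 2) + m * h) c ⊆
        Set.Icc ((-(N * h / 2) + m * h + h / 2) - (δ + 3 * h / 2))
          ((-(N * h / 2) + m * h + h / 2) + (δ + 3 * h / 2)) := by
      intro z hz
      rw [Set.mem_Icc]
      cases h1 : c m.castSucc with
      | true =>
        have h2 : c m.succ = false := by
          cases h3 : c m.succ with
          | true => exact absurd (h1.trans h3.symm) hm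
          | false => rfl
        have h4 := hz.1 _ h1
        have h5 := hz.2 _ h2
        simp only [Fin.val_castSucc, Fin.val_succ] at h4 h5
        push_cast at h5
        constructor <;> linarith
      | false =>
        have h2 : c m.succ = true := by
          cases h3 : c m.succ with
          | true => rfl
          | false => exact absurd (h1.trans h3.symm) hm
        have h4 := hz.2 _ h1
        have h5 := hz.1 _ h2
        simp only [Fin.val_castSucc, Fin.val_succ] at h4 h5
        push_cast at h5
        constructor <;> linarith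
    exact (measureReal_mono hsub).trans key

end Pool.Agent.P8H7.BC
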